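import Mathlib

/-!
# [H36 NA BIO]  (MP_8d0949_an)  Bounded biorthogonal systems with weak* null functionals

Mazur's construction of a basic sequence in an infinite dimensional normed space, the coordinate
functionals, and a weak* null sequence of them in the separable case.
-/

set_option autoImplicit false

namespace Pool.Agent.H36.NA

open Filter Topology Metric

variable {𝕜 : Type*} [RCLike 𝕜] {X : Type*} [NormedAddCommGroup X] [NormedSpace 𝕜 X]

/-- finitely many functionals have a common zero on the unit sphere -/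
theorem exists_unit_ker (hX : ¬ FiniteDimensional 𝕜 X) (F : Finset (StrongDual 𝕜 X)) :
    ∃ z : X, ‖z‖ = 1 ∧ ∀ φ ∈ F, φ z = 0 := by
  classical
  let Φ : X →ₗ[𝕜] (F → 𝕜) := LinearMap.pi (fun φ => (φ.1 : X →ₗ[𝕜] 𝕜))
  have hn : ¬ Function.Injective Φ := fun h => hX (FiniteDimensional.of_injective Φ h)
  rw [← LinearMap.ker_eq_bot] at hn
  obtain ⟨y, hy, hy0⟩ := (Submodule.ne_bot_iff _).1 hn
  have hy1 : ‖y‖ ≠ 0 := norm_ne_zero_iff.2 hy0
  refine ⟨((‖y‖ : 𝕜)⁻¹) • y, ?_, ?_⟩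
  · rw [norm_smul, norm_inv, RCLike.norm_ofReal, abs_norm, inv_mul_cancel₀ hy1]
  · intro φ hφ
    have h1 : Φ y = 0 := LinearMap.mem_ker.1 hy
    have h2 : Φ y ⟨φ, hφ⟩ = 0 := by rw [h1]; rfl
    have h3 : φ y = 0 := h2
    rw [map_smul, h3, smul_zero]

/-- Mazur's step -/
theorem mazur_step (hX : ¬ FiniteDimensional 𝕜 X) (f : StrongDual 𝕜 X) (W : Submodule 𝕜 X)
    [FiniteDimensional 𝕜 W] {q : ℝ} (hq : q < 1) :
    ∃ z : X, ‖z‖ = 1 ∧ f z = 0 ∧ ∀ y ∈ W, ∀ t : 𝕜, q * ‖y‖ ≤ ‖y + t • z‖ := by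
  classical
  have : ProperSpace W := FiniteDimensional.proper_rclike 𝕜 W
  have hK : IsCompact ((fun w : W => (w : X)) '' sphere (0 : W) 1) :=
    (isCompact_sphere (0 : W) 1).image continuous_subtype_val
  obtain ⟨t, ht, htf, hcov⟩ := hK.finite_cover_balls (sub_pos.2 hq)
  choose φ hφ1 hφ2 using fun x : X => exists_dual_vector'' 𝕜 x
  obtain ⟨z, hz1, hz2⟩ := exists_unit_ker hX (insert f (htf.toFinset.image φ))
  refine ⟨z, hz1, hz2 f (Finset.mem_insert_self _ _), ?_⟩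
  have key : ∀ y ∈ W, ‖y‖ = 1 → ∀ s : 𝕜, q ≤ ‖y + s • z‖ := by
    intro y hy hy1 s
    have hmem : y ∈ (fun w : W => (w : X)) '' sphere (0 : W) 1 := by
      refine ⟨⟨y, hy⟩, ?_, rfl⟩
      rw [mem_sphere_zero_iff_norm]
      exact hy1
    obtain ⟨c, hc, hyc⟩ := Set.mem_iUnion₂.1 (hcov hmem)
    obtain ⟨w, hw, hwc⟩ := ht hc
    have hc1 : ‖c‖ = 1 := by
      rw [← hwc]
      exact mem_sphere_zero_iff_norm.1 hw
    have hz0 : φ c z = 0 :=
      hz2 _ (Finset.mem_insert_of_mem (Finset.mem_image_of_mem _ (htf.mem_toFinset.2 hc)))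
    have h1 : φ c (y + s • z) = φ c y := by rw [map_add, map_smul, hz0, smul_zero, add_zero]
    have h2 : ‖φ c y‖ ≤ ‖y + s • z‖ := by
      rw [← h1]
      calc ‖φ c (y + s • z)‖ ≤ ‖φ c‖ * ‖y + s • z‖ := (φ c).le_opNorm _
        _ ≤ 1 * ‖y + s • z‖ := mul_le_mul_of_nonneg_right (hφ1 c) (norm_nonneg _)
        _ = ‖y + s • z‖ := one_mul _
    have h3 : ‖φ c (c - y)‖ ≤ 1 - q := by
      calc ‖φ c (c - y)‖ ≤ ‖φ c‖ * ‖c - y‖ := (φ c).le_opNorm _
        _ ≤ 1 * ‖c - y‖ := mul_le_mul_of_nonneg_right (hφ1 c) (norm_nonneg _)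
        _ = dist y c := by rw [one_mul, dist_comm, dist_eq_norm]
        _ ≤ 1 - q := (mem_ball.1 hyc).le
    have h4 : ‖φ c c‖ = 1 := by
      rw [hφ2, RCLike.norm_ofReal, abs_norm, hc1]
    have h5 : φ c c = φ c (c - y) + φ c y := by rw [← map_add, sub_add_cancel]
    have h6 : ‖φ c c‖ ≤ ‖φ c (c - y)‖ + ‖φ c y‖ := by
      rw [h5]
      exact norm_add_le _ _
    linarith
  intro y hy s
  by_cases h0 : y = 0
  · rw [h0, norm_zero, mul_zero]
    exact norm_nonneg _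
  · have hy1 : ‖y‖ ≠ 0 := norm_ne_zero_iff.2 h0
    have hk : (‖y‖ : 𝕜) ≠ 0 := by exact_mod_cast hy1
    have h1 := key (((‖y‖ : 𝕜)⁻¹) • y) (W.smul_mem _ hy)
      (by rw [norm_smul, norm_inv, RCLike.norm_ofReal, abs_norm, inv_mul_cancel₀ hy1])
      ((‖y‖ : 𝕜)⁻¹ * s)
    rw [mul_smul, ← smul_add, norm_smul, norm_inv, RCLike.norm_ofReal, abs_norm] at h1
    have h2 : 0 < ‖y‖ := norm_pos_iff.2 h0
    rw [inv_mul_eq_div, le_div_iff₀ h2] at h1
    exact h1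

/-- dependent choice -/
theorem exists_rec {α β : Type*} {P : ℕ → α → β → Prop} (next : α → β → α) (a0 : α)
    (h : ∀ n a, ∃ b, P n a b) :
    ∃ (s : ℕ → α) (b : ℕ → β), s 0 = a0 ∧ (∀ n, P n (s n) (b n)) ∧
      ∀ n, s (n + 1) = next (s n) (b n) := by
  choose f hf using h
  let s : ℕ → α := fun n => Nat.rec a0 (fun m a => next a (f m a)) n
  exact ⟨s, fun n => f n (s n), rfl, fun n => hf _ _, fun n => rfl⟩

/-- the constants of the basic sequence -/
noncomputable def ak (n : ℕ) : ℝ := (n + 2) / (n + 1)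

theorem ak_pos (n : ℕ) : 0 < ak n := by unfold ak; positivity

theorem ak_le (n : ℕ) : ak n ≤ 2 := by
  unfold ak
  rw [div_le_iff₀ (by positivity)]
  have : (0 : ℝ) ≤ n := Nat.cast_nonneg n
  linarith

theorem one_le_ak (n : ℕ) : 1 ≤ ak n := by
  unfold ak
  rw [le_div_iff₀ (by positivity)]
  linarith

theorem ak_quot (n : ℕ) : ak (n + 1) / ak n < 1 := by
  rw [div_lt_one (ak_pos n)]
  unfold ak
  push_cast
  rw [div_lt_div_iff₀ (by positivity) (by positivity)]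
  nlinarith

/-- Mazur: a basic sequence starting with `x0`, in the kernel of `f` from the second term on -/
theorem exists_basic (hX : ¬ FiniteDimensional 𝕜 X) (x0 : X) (f : StrongDual 𝕜 X) :
    ∃ z : ℕ → X, (∀ n, ‖z n‖ = 1) ∧ (∀ n, f (z n) = 0) ∧
      ∀ (n m : ℕ) (s : 𝕜) (t : ℕ → 𝕜), n ≤ m →
        ‖s • x0 + ∑ j ∈ Finset.range n, t j • z j‖ ≤
          2 * ‖s • x0 + ∑ j ∈ Finset.range m, t j • z j‖ := by
  classical
  let A : Type _ := {W : Submodule 𝕜 X // FiniteDimensional 𝕜 W}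
  have hA0 : FiniteDimensional 𝕜 (Submodule.span 𝕜 {x0}) :=
    FiniteDimensional.span_of_finite 𝕜 (Set.finite_singleton x0)
  have hnext : ∀ (W : A) (z : X), FiniteDimensional 𝕜 (W.1 ⊔ Submodule.span 𝕜 {z} : Submodule 𝕜 X) := by
    intro W z
    have h1 := W.2
    have h2 : FiniteDimensional 𝕜 (Submodule.span 𝕜 {z}) :=
      FiniteDimensional.span_of_finite 𝕜 (Set.finite_singleton z)
    exact Submodule.finiteDimensional_sup _ _
  obtain ⟨W, z, hW0, hP, hWs⟩ := exists_rec (α := A) (β := X)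
    (P := fun n W z => ‖z‖ = 1 ∧ f z = 0 ∧
      ∀ y ∈ W.1, ∀ t : 𝕜, (ak (n + 1) / ak n) * ‖y‖ ≤ ‖y + t • z‖)
    (fun W z => ⟨W.1 ⊔ Submodule.span 𝕜 {z}, hnext W z⟩)
    ⟨Submodule.span 𝕜 {x0}, hA0⟩ (by
      intro n W
      have := W.2
      exact mazur_step hX f W.1 (ak_quot n))
  refine ⟨z, fun n => (hP n).1, fun n => (hP n).2.1, ?_⟩
  have hmem : ∀ (s : 𝕜) (t : ℕ → 𝕜) (m : ℕ),
      s • x0 + ∑ j ∈ Finset.range m, t j • z j ∈ (W m).1 := by
    intro s t m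
    induction m with
    | zero =>
      rw [Finset.sum_range_zero, add_zero, hW0]
      exact Submodule.smul_mem _ _ (Submodule.mem_span_singleton_self x0)
    | succ m ih =>
      rw [Finset.sum_range_succ, ← add_assoc, hWs]
      exact Submodule.add_mem_sup ih
        (Submodule.smul_mem _ _ (Submodule.mem_span_singleton_self (z m)))
  have key : ∀ (n m : ℕ) (s : 𝕜) (t : ℕ → 𝕜), n ≤ m →
      ak m * ‖s • x0 + ∑ j ∈ Finset.range n, t j • z j‖ ≤
        ak n * ‖s • x0 + ∑ j ∈ Finset.range m, t j • z j‖ := by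
    intro n m s t hnm
    induction m, hnm using Nat.le_induction with
    | base => exact le_rfl
    | succ m hnm ih =>
      have h1 := (hP m).2.2 _ (hmem s t m) (t m)
      rw [add_assoc, ← Finset.sum_range_succ] at h1
      have h2 : ak (m + 1) / ak m * (ak m * ‖s • x0 + ∑ j ∈ Finset.range n, t j • z j‖) ≤
          ak (m + 1) / ak m * (ak n * ‖s • x0 + ∑ j ∈ Finset.range m, t j • z j‖) :=
        mul_le_mul_of_nonneg_left ih (div_nonneg (ak_pos _).le (ak_pos _).le)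
      have h3 : ak (m + 1) / ak m * (ak m * ‖s • x0 + ∑ j ∈ Finset.range n, t j • z j‖) =
          ak (m + 1) * ‖s • x0 + ∑ j ∈ Finset.range n, t j • z j‖ := by
        rw [← mul_assoc, div_mul_cancel₀ _ (ak_pos m).ne']
      have h4 : ak (m + 1) / ak m * (ak n * ‖s • x0 + ∑ j ∈ Finset.range m, t j • z j‖) ≤
          ak n * ‖s • x0 + ∑ j ∈ Finset.range (m + 1), t j • z j‖ := by
        rw [mul_left_comm]
        exact mul_le_mul_of_nonneg_left h1 (ak_pos n).le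
      linarith
  intro n m s t hnm
  have h1 := key n m s t hnm
  have h2 : ‖s • x0 + ∑ j ∈ Finset.range n, t j • z j‖ ≤
      ak m * ‖s • x0 + ∑ j ∈ Finset.range n, t j • z j‖ :=
    le_mul_of_one_le_left (norm_nonneg _) (one_le_ak m)
  have h3 : ak n * ‖s • x0 + ∑ j ∈ Finset.range m, t j • z j‖ ≤
      2 * ‖s • x0 + ∑ j ∈ Finset.range m, t j • z j‖ :=
    mul_le_mul_of_nonneg_right (ak_le n) (norm_nonneg _)
  linarith

/-- the combination map -/
noncomputable def comb (x0 : X) (z : ℕ → X) : (𝕜 × (ℕ →₀ 𝕜)) →ₗ[𝕜] X :=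
  (LinearMap.toSpanSingleton 𝕜 X x0).coprod (Finsupp.linearCombination 𝕜 z)

/-- the combinations without `z n` -/
noncomputable def others (x0 : X) (z : ℕ → X) (n : ℕ) : Submodule 𝕜 X :=
  (LinearMap.ker ((Finsupp.lapply n : (ℕ →₀ 𝕜) →ₗ[𝕜] 𝕜).comp
    (LinearMap.snd 𝕜 𝕜 (ℕ →₀ 𝕜)))).map (comb x0 z)

/-- the coordinate functionals -/
theorem exists_coord (x0 : X) (z : ℕ → X) (hz : ∀ n, ‖z n‖ = 1)
    (hb : ∀ (n m : ℕ) (s : 𝕜) (t : ℕ → 𝕜), n ≤ m →
        ‖s • x0 + ∑ j ∈ Finset.range n, t j • z j‖ ≤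
          2 * ‖s • x0 + ∑ j ∈ Finset.range m, t j • z j‖) (n : ℕ) :
    ∃ g : StrongDual 𝕜 X, ‖g‖ ≤ 4 ∧ g x0 = 0 ∧ g (z n) = 1 ∧ ∀ m, m ≠ n → g (z m) = 0 := by
  classical
  have hx0 : x0 ∈ others (𝕜 := 𝕜) x0 z n := by
    refine ⟨(1, 0), ?_, ?_⟩
    · simp
    · simp [comb]
  have hzm : ∀ m, m ≠ n → z m ∈ others (𝕜 := 𝕜) x0 z n := by
    intro m hm
    refine ⟨(0, Finsupp.single m 1), ?_, ?_⟩
    · simp [hm]
    · simp [comb]
  have hdist : ∀ w ∈ others (𝕜 := 𝕜) x0 z n, 1 / 4 ≤ dist (z n) w := by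
    intro w hw
    obtain ⟨⟨s, t⟩, hst, hw'⟩ := hw
    have ht0 : t n = 0 := by simpa using hst
    have hw2 : w = s • x0 + t.sum (fun j c => c • z j) := by
      rw [← hw']
      simp [comb, Finsupp.linearCombination_apply]
    -- choose a bound of the support
    obtain ⟨m, hm⟩ : ∃ m : ℕ, t.support ⊆ Finset.range m ∧ n + 1 ≤ m := by
      refine ⟨max (t.support.sup id + 1) (n + 1), ?_, le_max_right _ _⟩
      intro j hj
      rw [Finset.mem_range]
      exact lt_of_lt_of_le (Nat.lt_succ_of_le (Finset.le_sup (f := id) hj)) (le_max_left _ _)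
    obtain ⟨hm1, hm2⟩ := hm
    have hw3 : w = s • x0 + ∑ j ∈ Finset.range m, t j • z j := by
      rw [hw2, Finsupp.sum_of_support_subset t hm1 _ (fun i _ => zero_smul 𝕜 (z i))]
    let t' : ℕ → 𝕜 := fun j => (if j = n then 1 else 0) - t j
    have hs : ∀ k, n + 1 ≤ k → (-s) • x0 + ∑ j ∈ Finset.range k, t' j • z j =
        z n - (s • x0 + ∑ j ∈ Finset.range k, t j • z j) := by
      intro k hk
      have h1 : ∑ j ∈ Finset.range k, t' j • z j =
          ∑ j ∈ Finset.range k, (if j = n then (1 : 𝕜) else 0) • z j -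
            ∑ j ∈ Finset.range k, t j • z j := by
        rw [← Finset.sum_sub_distrib]
        refine Finset.sum_congr rfl fun j _ => ?_
        rw [← sub_smul]
      have h2 : ∑ j ∈ Finset.range k, (if j = n then (1 : 𝕜) else 0) • z j = z n := by
        rw [Finset.sum_eq_single n]
        · rw [if_pos rfl, one_smul]
        · intro j _ hj
          rw [if_neg hj, zero_smul]
        · intro h
          exact absurd (Finset.mem_range.2 (by omega)) h
      rw [h1, h2, neg_smul]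
      abel
    have e1 := hb n m (-s) t' (by omega)
    have e2 := hb (n + 1) m (-s) t' hm2
    rw [hs m hm2, ← hw3] at e1 e2
    rw [Finset.sum_range_succ, ← add_assoc] at e2
    have h3 : t' n = 1 := by simp [t', ht0]
    rw [h3, one_smul] at e2
    have h4 : ‖z n‖ ≤ ‖(-s) • x0 + ∑ j ∈ Finset.range n, t' j • z j + z n‖ +
        ‖(-s) • x0 + ∑ j ∈ Finset.range n, t' j • z j‖ := by
      have := norm_sub_le ((-s) • x0 + ∑ j ∈ Finset.range n, t' j • z j + z n)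
        ((-s) • x0 + ∑ j ∈ Finset.range n, t' j • z j)
      rwa [add_sub_cancel_left] at this
    rw [hz n] at h4
    rw [dist_eq_norm]
    linarith
  -- quotient
  set S := others (𝕜 := 𝕜) x0 z n with hS
  have hq : 1 / 4 ≤ ‖S.mkQ (z n)‖ := by
    have h1 : ‖S.mkQ (z n)‖ = infDist (z n) (S : Set X) :=
      QuotientAddGroup.norm_mk (S := S.toAddSubgroup) (z n)
    rw [h1]
    exact (le_infDist ⟨0, S.zero_mem⟩).2 fun y hy => hdist y hy
  have hq0 : ‖S.mkQ (z n)‖ ≠ 0 := by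
    intro h
    rw [h] at hq
    norm_num at hq
  obtain ⟨G, hG1, hG2⟩ := exists_dual_vector 𝕜 (S.mkQ (z n)) hq0
  have hk : ((‖S.mkQ (z n)‖ : ℝ) : 𝕜) ≠ 0 := by exact_mod_cast hq0
  refine ⟨((‖S.mkQ (z n)‖ : ℝ) : 𝕜)⁻¹ • G.comp S.mkQL, ?_, ?_, ?_, ?_⟩
  · refine ContinuousLinearMap.opNorm_le_bound _ (by norm_num) fun y => ?_
    have h1 : ‖G (S.mkQ y)‖ ≤ ‖y‖ := by
      calc ‖G (S.mkQ y)‖ ≤ ‖G‖ * ‖S.mkQ y‖ := G.le_opNorm _
        _ = ‖S.mkQ y‖ := by rw [hG1, one_mul]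
        _ ≤ ‖y‖ := Submodule.Quotient.norm_mk_le S y
    have h2 : ‖((‖S.mkQ (z n)‖ : ℝ) : 𝕜)⁻¹‖ ≤ 4 := by
      rw [norm_inv, RCLike.norm_ofReal, abs_norm]
      rw [inv_le_comm₀ (lt_of_lt_of_le (by norm_num) hq) (by norm_num)]
      linarith
    show ‖((‖S.mkQ (z n)‖ : ℝ) : 𝕜)⁻¹ * G (S.mkQ y)‖ ≤ 4 * ‖y‖
    rw [norm_mul]
    exact mul_le_mul h2 h1 (norm_nonneg _) (by norm_num)
  · show ((‖S.mkQ (z n)‖ : ℝ) : 𝕜)⁻¹ * G (S.mkQ x0) = 0
    have : S.mkQ x0 = 0 := (Submodule.Quotient.mk_eq_zero S).2 hx0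
    rw [this, map_zero, mul_zero]
  · show ((‖S.mkQ (z n)‖ : ℝ) : 𝕜)⁻¹ * G (S.mkQ (z n)) = 1
    rw [hG2]
    exact inv_mul_cancel₀ hk
  · intro m hm
    show ((‖S.mkQ (z n)‖ : ℝ) : 𝕜)⁻¹ * G (S.mkQ (z m)) = 0
    have : S.mkQ (z m) = 0 := (Submodule.Quotient.mk_eq_zero S).2 (hzm m hm)
    rw [this, map_zero, mul_zero]

/-- the system used in the construction -/
theorem exists_system [TopologicalSpace.SeparableSpace X] (hX : ¬ FiniteDimensional 𝕜 X) :
    ∃ (x0 : X) (f : StrongDual 𝕜 X) (z : ℕ → X) (g : ℕ → StrongDual 𝕜 X),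
      ‖x0‖ = 1 ∧ ‖f‖ ≤ 1 ∧ f x0 = 1 ∧ (∀ n, ‖z n‖ = 1) ∧ (∀ n, f (z n) = 0) ∧
      (∀ n, ‖g n‖ ≤ 8) ∧ (∀ n, g n x0 = 0) ∧ (∀ n, g n (z n) = 1) ∧
      (∀ m n, m ≠ n → g m (z n) = 0) ∧ ∀ x, Tendsto (fun n => g n x) atTop (nhds 0) := by
  classical
  obtain ⟨x0, hx0, -⟩ := exists_unit_ker hX ∅
  obtain ⟨f, hf1, hf2⟩ := exists_dual_vector'' 𝕜 x0
  obtain ⟨z, hz1, hz2, hz3⟩ := exists_basic hX x0 f
  choose g hg1 hg2 hg3 hg4 using exists_coord (𝕜 := 𝕜) x0 z hz1 hz3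
  have hball : ∀ n, StrongDual.toWeakDual (g n) ∈
      (WeakDual.toStrongDual ⁻¹' closedBall (0 : StrongDual 𝕜 X) 4) := by
    intro n
    rw [Set.mem_preimage, mem_closedBall_zero_iff]
    exact hg1 n
  obtain ⟨G, hG, φ, hφ, hlim⟩ := WeakDual.isSeqCompact_closedBall 𝕜 X 0 4 hball
  have hlim' : ∀ x, Tendsto (fun k => g (φ k) x) atTop (nhds (G x)) := by
    intro x
    have := (tendsto_iff_forall_eval_tendsto_topDualPairing.1 hlim) x
    exact this
  have hG4 : ‖WeakDual.toStrongDual G‖ ≤ 4 := by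
    rw [Set.mem_preimage, mem_closedBall_zero_iff] at hG
    exact hG
  have hGx : G x0 = 0 := by
    refine tendsto_nhds_unique (hlim' x0) ?_
    simp only [hg2]
    exact tendsto_const_nhds
  have hGz : ∀ m, G (z m) = 0 := by
    intro m
    refine tendsto_nhds_unique (hlim' (z m)) ?_
    refine tendsto_const_nhds.congr' ?_
    filter_upwards [eventually_gt_atTop m] with k hk
    have h1 : m ≠ φ k := by
      have := hφ.le_apply (x := k)
      omega
    exact (hg4 (φ k) m h1).symm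
  refine ⟨x0, f, fun k => z (φ k), fun k => g (φ k) - WeakDual.toStrongDual G, hx0, hf1, ?_,
    fun k => hz1 _, fun k => hz2 _, ?_, ?_, ?_, ?_, ?_⟩
  · rw [hf2, hx0]
    simp
  · intro k
    calc ‖g (φ k) - WeakDual.toStrongDual G‖ ≤ ‖g (φ k)‖ + ‖WeakDual.toStrongDual G‖ :=
          norm_sub_le _ _
      _ ≤ 4 + 4 := add_le_add (hg1 _) hG4
      _ = 8 := by norm_num
  · intro k
    show g (φ k) x0 - G x0 = 0
    rw [hg2, hGx, sub_zero]
  · intro k
    show g (φ k) (z (φ k)) - G (z (φ k)) = 1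
    rw [hg3, hGz, sub_zero]
  · intro k l hkl
    show g (φ k) (z (φ l)) - G (z (φ l)) = 0
    have h1 : φ l ≠ φ k := fun h => hkl (hφ.injective h).symm
    rw [hg4 _ _ h1, hGz, sub_zero]
  · intro x
    show Tendsto (fun k => g (φ k) x - G x) atTop (nhds 0)
    have := (hlim' x).sub_const (G x)
    rwa [sub_self] at this

end Pool.Agent.H36.NA
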