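import Pool.Agent.H36.NA.Bio

/-!
# [H36 NA NRM]  (MP_8d0949_an)  The norm and the operator
-/

set_option autoImplicit false

namespace Pool.Agent.H36.NA

open Filter Topology Metric

variable {𝕜 : Type*} [RCLike 𝕜] {X : Type*} [NormedAddCommGroup X] [NormedSpace 𝕜 X]

/-- the norm given by adding the functionals `h i` to the dual ball -/
theorem exists_sup_norm {ι : Type*} (h : ι → StrongDual 𝕜 X) {C : ℝ} (hC : 1 ≤ C)
    (hh : ∀ i, ‖h i‖ ≤ C) :
    ∃ N : Seminorm 𝕜 X, (∀ x, ‖x‖ ≤ N x) ∧ (∀ x, N x ≤ C * ‖x‖) ∧ (∀ i x, ‖h i x‖ ≤ N x) ∧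
      ∀ x R, ‖x‖ ≤ R → (∀ i, ‖h i x‖ ≤ R) → N x ≤ R := by
  let p : Option ι → Seminorm 𝕜 X := fun o => match o with
    | none => normSeminorm 𝕜 X
    | some i => (normSeminorm 𝕜 𝕜).comp (h i : X →ₗ[𝕜] 𝕜)
  have hp0 : ∀ x, p none x = ‖x‖ := fun x => rfl
  have hp1 : ∀ i x, p (some i) x = ‖h i x‖ := fun i x => rfl
  have hle : ∀ o x, p o x ≤ C * ‖x‖ := by
    intro o x
    match o with
    | none =>
      rw [hp0]
      exact le_mul_of_one_le_left (norm_nonneg x) hC
    | some i =>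
      rw [hp1]
      exact ((h i).le_opNorm x).trans (mul_le_mul_of_nonneg_right (hh i) (norm_nonneg x))
  have hb' : ∀ x, BddAbove (Set.range fun o => p o x) := by
    intro x
    refine ⟨C * ‖x‖, ?_⟩
    rintro _ ⟨o, rfl⟩
    exact hle o x
  have hb : BddAbove (Set.range p) := Seminorm.bddAbove_range_iff.2 hb'
  have hN : ∀ x, (⨆ o, p o) x = ⨆ o, p o x := fun x => Seminorm.iSup_apply hb
  refine ⟨⨆ o, p o, fun x => ?_, fun x => ?_, fun i x => ?_, fun x R h1 h2 => ?_⟩
  · rw [hN, ← hp0]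
    exact le_ciSup (hb' x) none
  · rw [hN]
    exact ciSup_le fun o => hle o x
  · rw [hN, ← hp1]
    exact le_ciSup (hb' x) (some i)
  · rw [hN]
    refine ciSup_le fun o => ?_
    match o with
    | none => exact h1
    | some i => exact h2 i

/-- a sequence of numbers below `L` with limit below `L` is bounded away from `L` -/
theorem exists_lt_bound {s : ℕ → ℝ} {l L : ℝ} (hs : Tendsto s atTop (nhds l)) (hl : l < L)
    (h : ∀ n, s n < L) : ∃ R < L, ∀ n, s n ≤ R := by
  obtain ⟨R0, hR1, hR2⟩ := exists_between hl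
  obtain ⟨n0, hn0⟩ := eventually_atTop.1 (hs.eventually (gt_mem_nhds hR1))
  have hfin : ∀ m : ℕ, ∃ R < L, ∀ n < m, s n ≤ R := by
    intro m
    induction m with
    | zero => exact ⟨R0, hR2, fun n hn => absurd hn (Nat.not_lt_zero n)⟩
    | succ m ih =>
      obtain ⟨R, hR, hRm⟩ := ih
      refine ⟨max R (s m), max_lt hR (h m), fun n hn => ?_⟩
      rcases Nat.lt_succ_iff_lt_or_eq.1 hn with h1 | h1
      · exact (hRm n h1).trans (le_max_left _ _)
      · rw [h1]
        exact le_max_right _ _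
  obtain ⟨R, hR, hRm⟩ := hfin n0
  refine ⟨max R R0, max_lt hR hR2, fun n => ?_⟩
  rcases lt_or_ge n n0 with h1 | h1
  · exact (hRm n h1).trans (le_max_left _ _)
  · exact (hn0 n h1).le.trans (le_max_right _ _)

/-- the core: norm, operator, supremum not attained -/
theorem exists_norm_op [TopologicalSpace.SeparableSpace X] (hX : ¬ FiniteDimensional 𝕜 X)
    {ε : ℝ} (hε : 0 < ε) (hε1 : ε ≤ 1) :
    ∃ N : Seminorm 𝕜 X, (∀ x, ‖x‖ ≤ N x) ∧ (∀ x, N x ≤ (1 + ε) * ‖x‖) ∧
      ∃ (φ : StrongDual 𝕜 X) (u : X) (L : ℝ), (∀ x, N x ≤ 1 → N (x - φ x • u) < L) ∧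
        ∀ R < L, ∃ x, N x ≤ 1 ∧ R < N (x - φ x • u) := by
  obtain ⟨x0, f, z, g, hx0, hf1, hfx, hz1, hfz, hg8, hgx, hgz, hgzn, hglim⟩ :=
    exists_system (𝕜 := 𝕜) hX
  -- the constants
  set e : ℝ := ε / 4 with he
  set b : ℝ := ε / 64 with hb
  set c : ℝ := e / (1 + e) with hc
  set A : ℝ := 4 / c with hA
  set M : ℝ := A / (1 + e) + b * c with hM
  set L : ℝ := (1 + e) * M with hL
  let r : ℕ → ℝ := fun n => 1 + e * ((n : ℝ) / (n + 1))
  have e0 : 0 < e := by positivity
  have e1 : e ≤ 1 / 4 := by rw [he]; linarith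
  have b0 : 0 < b := by positivity
  have c0 : 0 < c := by positivity
  have ce : c * (1 + e) = e := by rw [hc]; field_simp
  have A0 : 0 < A := by positivity
  have Ac : A * c = 4 := by rw [hA]; field_simp
  have M0 : 0 < M := by positivity
  have c1 : c ≤ 1 := by
    rw [hc, div_le_one (by linarith)]
    linarith
  have A4 : 4 ≤ A := by
    have : A * c ≤ A * 1 := mul_le_mul_of_nonneg_left c1 A0.le
    linarith
  have LA : L = A + (1 + e) * (b * c) := by
    rw [hL, hM]
    field_simp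
  have bc0 : 0 < (1 + e) * (b * c) := by positivity
  have hrlt : ∀ n, r n < 1 + e := by
    intro n
    have h1 : (n : ℝ) / (n + 1) < 1 := by
      rw [div_lt_one (by positivity)]
      linarith
    have : e * ((n : ℝ) / (n + 1)) < e * 1 := mul_lt_mul_of_pos_left h1 e0
    show 1 + e * ((n : ℝ) / (n + 1)) < 1 + e
    linarith
  have hr1 : ∀ n, 1 ≤ r n := by
    intro n
    have : 0 ≤ e * ((n : ℝ) / (n + 1)) := by positivity
    show 1 ≤ 1 + e * ((n : ℝ) / (n + 1))
    linarith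
  have hrlim : Tendsto r atTop (nhds (1 + e)) := by
    have h1 : Tendsto (fun n : ℕ => (n : ℝ) / ((n : ℝ) + 1)) atTop (nhds 1) :=
      tendsto_natCast_div_add_atTop 1
    have h2 := (h1.const_mul e).const_add 1
    rwa [mul_one] at h2
  -- the functionals
  let h : ℕ ⊕ ℕ → StrongDual 𝕜 X := fun i => match i with
    | Sum.inl n => ((r n : ℝ) : 𝕜) • (f + ((b : ℝ) : 𝕜) • g n)
    | Sum.inr n => ((M : ℝ) : 𝕜)⁻¹ • (((A : ℝ) : 𝕜) • f - ((b : ℝ) : 𝕜) • g n)
  have h1v : ∀ n x, ‖h (Sum.inl n) x‖ = r n * ‖f x + (b : 𝕜) * g n x‖ := by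
    intro n x
    show ‖((r n : ℝ) : 𝕜) * (f x + ((b : ℝ) : 𝕜) * g n x)‖ = _
    rw [norm_mul, RCLike.norm_ofReal, abs_of_nonneg (by linarith [hr1 n])]
  have h2v : ∀ n x, ‖h (Sum.inr n) x‖ = ‖(A : 𝕜) * f x - (b : 𝕜) * g n x‖ / M := by
    intro n x
    show ‖((M : ℝ) : 𝕜)⁻¹ * (((A : ℝ) : 𝕜) * f x - ((b : ℝ) : 𝕜) * g n x)‖ = _
    rw [norm_mul, norm_inv, RCLike.norm_ofReal, abs_of_nonneg M0.le, inv_mul_eq_div]
  have fle : ∀ x, ‖f x‖ ≤ ‖x‖ := fun x =>
    (f.le_opNorm x).trans (by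
      have := mul_le_mul_of_nonneg_right hf1 (norm_nonneg x)
      linarith)
  have gle : ∀ n x, ‖(b : 𝕜) * g n x‖ ≤ 8 * b * ‖x‖ := by
    intro n x
    rw [norm_mul, RCLike.norm_ofReal, abs_of_nonneg b0.le]
    have h3 : ‖g n x‖ ≤ 8 * ‖x‖ :=
      ((g n).le_opNorm x).trans (mul_le_mul_of_nonneg_right (hg8 n) (norm_nonneg x))
    calc b * ‖g n x‖ ≤ b * (8 * ‖x‖) := mul_le_mul_of_nonneg_left h3 b0.le
      _ = 8 * b * ‖x‖ := by ring
  have hbound : ∀ i, ‖h i‖ ≤ 1 + ε := by
    intro i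
    refine ContinuousLinearMap.opNorm_le_bound _ (by linarith) fun x => ?_
    have hx := norm_nonneg x
    match i with
    | Sum.inl n =>
      rw [h1v]
      have h3 : ‖f x + (b : 𝕜) * g n x‖ ≤ (1 + 8 * b) * ‖x‖ := by
        refine (norm_add_le _ _).trans ?_
        rw [add_mul, one_mul]
        exact add_le_add (fle x) (gle n x)
      have h4 : r n * ‖f x + (b : 𝕜) * g n x‖ ≤ (1 + e) * ((1 + 8 * b) * ‖x‖) :=
        mul_le_mul (hrlt n).le h3 (norm_nonneg _) (by linarith)
      have h5 : (1 + e) * (1 + 8 * b) ≤ 1 + ε := by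
        have h6 : (1 + e) * (1 + 8 * b) = 1 + 3 * ε / 8 + ε * ε / 32 := by
          rw [he, hb]
          ring
        have h7 : ε * ε ≤ ε * 1 := mul_le_mul_of_nonneg_left hε1 hε.le
        rw [h6]
        linarith
      calc r n * ‖f x + (b : 𝕜) * g n x‖ ≤ (1 + e) * ((1 + 8 * b) * ‖x‖) := h4
        _ = (1 + e) * (1 + 8 * b) * ‖x‖ := by ring
        _ ≤ (1 + ε) * ‖x‖ := mul_le_mul_of_nonneg_right h5 hx
    | Sum.inr n =>
      rw [h2v, div_le_iff₀ M0]
      have h3 : ‖(A : 𝕜) * f x - (b : 𝕜) * g n x‖ ≤ (A + 8 * b) * ‖x‖ := by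
        refine (norm_sub_le _ _).trans ?_
        have h4 : ‖(A : 𝕜) * f x‖ ≤ A * ‖x‖ := by
          rw [norm_mul, RCLike.norm_ofReal, abs_of_nonneg A0.le]
          exact mul_le_mul_of_nonneg_left (fle x) A0.le
        rw [add_mul]
        exact add_le_add h4 (gle n x)
      have h5 : A + 8 * b ≤ (1 + ε) * M := by
        have h6 : A ≤ (1 + e) * M := by rw [← hL, LA]; linarith
        have h7 : 8 * b ≤ (ε - e) * M := by
          have h8 : 3 ≤ M := by
            have h9 : A / (1 + e) ≤ M := by rw [hM]; linarith [mul_pos b0 c0]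
            have h10 : 3 ≤ A / (1 + e) := by
              rw [le_div_iff₀ (by linarith)]
              linarith
            linarith
          have h11 : ε - e = 3 * ε / 4 := by rw [he]; ring
          rw [h11, hb]
          have h12 : 3 * ε / 4 * 3 ≤ 3 * ε / 4 * M :=
            mul_le_mul_of_nonneg_left h8 (by linarith)
          linarith
        have h13 : (1 + ε) * M = (1 + e) * M + (ε - e) * M := by ring
        linarith
      calc ‖(A : 𝕜) * f x - (b : 𝕜) * g n x‖ ≤ (A + 8 * b) * ‖x‖ := h3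
        _ ≤ (1 + ε) * M * ‖x‖ := mul_le_mul_of_nonneg_right h5 hx
        _ = (1 + ε) * ‖x‖ * M := by ring
  obtain ⟨N, N1, N2, N3, N4⟩ := exists_sup_norm h (by linarith : (1 : ℝ) ≤ 1 + ε) hbound
  refine ⟨N, N1, N2, ((A + 1 : ℝ) : 𝕜) • f, x0, L, ?_, ?_⟩
  · intro y hy
    -- coordinates of `T y`
    have hfT : f (y - (((A + 1 : ℝ) : 𝕜) • f) y • x0) = -((A : 𝕜) * f y) := by
      show f (y - (((A + 1 : ℝ) : 𝕜) * f y) • x0) = _
      rw [map_sub, map_smul, hfx, smul_eq_mul, mul_one]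
      push_cast
      ring
    have hgT : ∀ n, g n (y - (((A + 1 : ℝ) : 𝕜) • f) y • x0) = g n y := by
      intro n
      show g n (y - (((A + 1 : ℝ) : 𝕜) * f y) • x0) = _
      rw [map_sub, map_smul, hgx, smul_zero, sub_zero]
    have hy1 : ‖y‖ ≤ 1 := (N1 y).trans hy
    have hfy : (1 + e) * ‖f y‖ ≤ 1 := by
      have h3 : Tendsto (fun n => r n * ‖f y + (b : 𝕜) * g n y‖) atTop
          (nhds ((1 + e) * ‖f y + (b : 𝕜) * 0‖)) :=
        hrlim.mul ((((hglim y).const_mul (b : 𝕜)).const_add (f y)).norm)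
      rw [mul_zero, add_zero] at h3
      refine le_of_tendsto h3 (Eventually.of_forall fun n => ?_)
      rw [← h1v]
      exact (N3 (Sum.inl n) y).trans hy
    have hfy' : ‖f y‖ ≤ 1 / (1 + e) := by
      rw [le_div_iff₀ (by linarith)]
      linarith
    -- the three bounds
    have B1 : ‖y - (((A + 1 : ℝ) : 𝕜) • f) y • x0‖ ≤ A := by
      show ‖y - (((A + 1 : ℝ) : 𝕜) * f y) • x0‖ ≤ A
      refine (norm_sub_le _ _).trans ?_
      rw [norm_smul, norm_mul, RCLike.norm_ofReal, hx0, mul_one, abs_of_nonneg (by linarith)]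
      have h3 : (A + 1) * ‖f y‖ ≤ (A + 1) * (1 / (1 + e)) :=
        mul_le_mul_of_nonneg_left hfy' (by linarith)
      have h4 : (A + 1) * (1 / (1 + e)) ≤ A - 1 := by
        rw [mul_one_div, div_le_iff₀ (by linarith)]
        have h5 : A * e = 4 * (1 + e) := by
          have : A * e = A * c * (1 + e) := by rw [mul_assoc, ce]
          rw [this, Ac]
        have h6 : (A - 1) * (1 + e) = A - 1 + A * e - e := by ring
        rw [h6, h5]
        linarith
      linarith
    have B3 : ∀ n, ‖h (Sum.inr n) (y - (((A + 1 : ℝ) : 𝕜) • f) y • x0)‖ ≤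
        (A * A / (1 + e) + 8 * b) / M := by
      intro n
      rw [h2v, hfT, hgT]
      refine div_le_div_of_nonneg_right ?_ M0.le
      refine (norm_sub_le _ _).trans ?_
      have h3 : ‖(A : 𝕜) * -((A : 𝕜) * f y)‖ ≤ A * A / (1 + e) := by
        rw [norm_mul, norm_neg, norm_mul, RCLike.norm_ofReal, abs_of_nonneg A0.le, ← mul_assoc]
        calc A * A * ‖f y‖ ≤ A * A * (1 / (1 + e)) :=
              mul_le_mul_of_nonneg_left hfy' (by positivity)
          _ = A * A / (1 + e) := by ring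
      have h4 := gle n y
      have h5 : 8 * b * ‖y‖ ≤ 8 * b * 1 := mul_le_mul_of_nonneg_left hy1 (by linarith)
      linarith
    have B3' : (A * A / (1 + e) + 8 * b) / M < L := by
      rw [div_lt_iff₀ M0, hL]
      have h3 : (1 + e) * M * M = A * A / (1 + e) + 2 * (A * c) * b + (1 + e) * (b * c) ^ 2 := by
        rw [hM]
        field_simp
        ring
      rw [h3, Ac]
      have : 0 < (1 + e) * (b * c) ^ 2 := by positivity
      linarith
    have B2lim : Tendsto (fun n => ‖h (Sum.inl n) (y - (((A + 1 : ℝ) : 𝕜) • f) y • x0)‖) atTop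
        (nhds ((1 + e) * ‖-((A : 𝕜) * f y) + (b : 𝕜) * 0‖)) := by
      have h3 : ∀ n, ‖h (Sum.inl n) (y - (((A + 1 : ℝ) : 𝕜) • f) y • x0)‖ =
          r n * ‖-((A : 𝕜) * f y) + (b : 𝕜) * g n y‖ := by
        intro n
        rw [h1v, hfT, hgT]
      simp only [h3]
      exact hrlim.mul ((((hglim y).const_mul (b : 𝕜)).const_add _).norm)
    have B2l : (1 + e) * ‖-((A : 𝕜) * f y) + (b : 𝕜) * 0‖ < L := by
      rw [mul_zero, add_zero, norm_neg, norm_mul, RCLike.norm_ofReal, abs_of_nonneg A0.le]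
      have h3 : (1 + e) * (A * ‖f y‖) = A * ((1 + e) * ‖f y‖) := by ring
      rw [h3, LA]
      have h4 : A * ((1 + e) * ‖f y‖) ≤ A * 1 := mul_le_mul_of_nonneg_left hfy A0.le
      linarith
    have B2 : ∀ n, ‖h (Sum.inl n) (y - (((A + 1 : ℝ) : 𝕜) • f) y • x0)‖ < L := by
      intro n
      rw [h1v, hfT, hgT]
      have h3 : ‖-((A : 𝕜) * f y) + (b : 𝕜) * g n y‖ = ‖(A : 𝕜) * f y - (b : 𝕜) * g n y‖ := by
        rw [← norm_neg]
        congr 1
        ring
      have h4 : ‖(A : 𝕜) * f y - (b : 𝕜) * g n y‖ ≤ M := by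
        have h5 := (N3 (Sum.inr n) y).trans hy
        rw [h2v, div_le_one M0] at h5
        exact h5
      rw [h3, hL]
      calc r n * ‖(A : 𝕜) * f y - (b : 𝕜) * g n y‖ ≤ r n * M :=
            mul_le_mul_of_nonneg_left h4 (by linarith [hr1 n])
        _ < (1 + e) * M := mul_lt_mul_of_pos_right (hrlt n) M0
    obtain ⟨R2, hR2, hR2'⟩ := exists_lt_bound B2lim B2l B2
    have hAL : A < L := by rw [LA]; linarith
    refine lt_of_le_of_lt (N4 _ (max A (max R2 ((A * A / (1 + e) + 8 * b) / M))) ?_ ?_)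
      (max_lt hAL (max_lt hR2 B3'))
    · exact B1.trans (le_max_left _ _)
    · intro i
      match i with
      | Sum.inl n => exact (hR2' n).trans ((le_max_left _ _).trans (le_max_right _ _))
      | Sum.inr n => exact (B3 n).trans ((le_max_right _ _).trans (le_max_right _ _))
  · intro R hR
    -- the maximising sequence
    have h1 : Tendsto (fun n => r n * M) atTop (nhds ((1 + e) * M)) := hrlim.mul_const M
    obtain ⟨n, hn⟩ := (h1.eventually (lt_mem_nhds (show R < (1 + e) * M from hR))).exists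
    let y : X := ((1 / (1 + e) : ℝ) : 𝕜) • x0 - ((c : ℝ) : 𝕜) • z n
    have hfy : f y = ((1 / (1 + e) : ℝ) : 𝕜) := by
      show f (((1 / (1 + e) : ℝ) : 𝕜) • x0 - ((c : ℝ) : 𝕜) • z n) = _
      rw [map_sub, map_smul, map_smul, hfx, hfz, smul_zero, sub_zero, smul_eq_mul, mul_one]
    have hgy : g n y = -((c : ℝ) : 𝕜) := by
      show g n (((1 / (1 + e) : ℝ) : 𝕜) • x0 - ((c : ℝ) : 𝕜) • z n) = _
      rw [map_sub, map_smul, map_smul, hgx, hgz, smul_zero, zero_sub, smul_eq_mul, mul_one]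
    have hgy' : ∀ m, m ≠ n → g m y = 0 := by
      intro m hm
      show g m (((1 / (1 + e) : ℝ) : 𝕜) • x0 - ((c : ℝ) : 𝕜) • z n) = _
      rw [map_sub, map_smul, map_smul, hgx, hgzn m n hm, smul_zero, smul_zero, sub_zero]
    have hpos : 0 < 1 / (1 + e) := by positivity
    have hbc1 : b * c ≤ 1 / (1 + e) := by
      have h3 : c ≤ 1 / (1 + e) := by
        rw [hc]
        exact div_le_div_of_nonneg_right (by linarith) (by linarith)
      have h4 : b ≤ 1 := by rw [hb]; linarith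
      calc b * c ≤ 1 * c := mul_le_mul_of_nonneg_right h4 c0.le
        _ = c := one_mul c
        _ ≤ 1 / (1 + e) := h3
    have hNy : N y ≤ 1 := by
      refine N4 y 1 ?_ ?_
      · refine (norm_sub_le _ _).trans ?_
        rw [norm_smul, norm_smul, hx0, hz1, mul_one, mul_one, RCLike.norm_ofReal,
          RCLike.norm_ofReal, abs_of_nonneg hpos.le, abs_of_nonneg c0.le]
        have : 1 / (1 + e) + c = 1 := by
          rw [hc]
          field_simp
        linarith
      · intro i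
        match i with
        | Sum.inl m =>
          rw [h1v, hfy]
          by_cases hm : m = n
          · rw [hm, hgy]
            have h3 : ((1 / (1 + e) : ℝ) : 𝕜) + (b : 𝕜) * -((c : ℝ) : 𝕜) =
                ((1 / (1 + e) - b * c : ℝ) : 𝕜) := by
              push_cast
              ring
            rw [h3, RCLike.norm_ofReal, abs_of_nonneg (by linarith)]
            have h4 : 1 / (1 + e) - b * c ≤ 1 / (1 + e) := by
              have := mul_pos b0 c0
              linarith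
            calc r n * (1 / (1 + e) - b * c) ≤ (1 + e) * (1 / (1 + e)) :=
                  mul_le_mul (hrlt n).le h4 (by linarith) (by linarith)
              _ = 1 := by field_simp
          · rw [hgy' m hm, mul_zero, add_zero, RCLike.norm_ofReal, abs_of_nonneg hpos.le]
            calc r m * (1 / (1 + e)) ≤ (1 + e) * (1 / (1 + e)) :=
                  mul_le_mul_of_nonneg_right (hrlt m).le hpos.le
              _ = 1 := by field_simp
        | Sum.inr m =>
          rw [h2v, hfy, div_le_one M0]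
          by_cases hm : m = n
          · rw [hm, hgy]
            have h3 : (A : 𝕜) * ((1 / (1 + e) : ℝ) : 𝕜) - (b : 𝕜) * -((c : ℝ) : 𝕜) =
                ((M : ℝ) : 𝕜) := by
              rw [hM]
              push_cast
              ring
            rw [h3, RCLike.norm_ofReal, abs_of_nonneg M0.le]
          · rw [hgy' m hm, mul_zero, sub_zero]
            have h3 : (A : 𝕜) * ((1 / (1 + e) : ℝ) : 𝕜) = ((A / (1 + e) : ℝ) : 𝕜) := by
              push_cast
              ring
            rw [h3, RCLike.norm_ofReal, abs_of_nonneg (by positivity), hM]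
            have := mul_pos b0 c0
            linarith
    refine ⟨y, hNy, lt_of_lt_of_le hn ?_⟩
    have h5 := N3 (Sum.inl n) (y - (((A + 1 : ℝ) : 𝕜) • f) y • x0)
    refine le_trans (le_of_eq ?_) h5
    have hfT : f (y - (((A + 1 : ℝ) : 𝕜) • f) y • x0) = -((A : 𝕜) * f y) := by
      show f (y - (((A + 1 : ℝ) : 𝕜) * f y) • x0) = _
      rw [map_sub, map_smul, hfx, smul_eq_mul, mul_one]
      push_cast
      ring
    have hgT : g n (y - (((A + 1 : ℝ) : 𝕜) • f) y • x0) = g n y := by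
      show g n (y - (((A + 1 : ℝ) : 𝕜) * f y) • x0) = _
      rw [map_sub, map_smul, hgx, smul_zero, sub_zero]
    rw [h1v, hfT, hgT, hfy, hgy]
    have h6 : -((A : 𝕜) * ((1 / (1 + e) : ℝ) : 𝕜)) + (b : 𝕜) * -((c : ℝ) : 𝕜) =
        -((M : ℝ) : 𝕜) := by
      rw [hM]
      push_cast
      ring
    rw [h6, norm_neg, RCLike.norm_ofReal, abs_of_nonneg M0.le]

end Pool.Agent.H36.NA
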