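import Mathlib

/-!
# [H36 NA REN]  (MP_8d0949_an)  A space with another norm
-/

set_option autoImplicit false

namespace Pool.Agent.H36.NA

universe u v

variable {𝕜 : Type v} [RCLike 𝕜] {X : Type u} [NormedAddCommGroup X] [NormedSpace 𝕜 X]

/-- a copy of the vector space `X` without topology -/
def Ren (X : Type u) : Type u := X

instance : AddCommGroup (Ren X) := inferInstanceAs (AddCommGroup X)

instance : Module 𝕜 (Ren X) := inferInstanceAs (Module 𝕜 X)

/-- the space `X` with an equivalent norm `N` -/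
theorem exists_ren (N : Seminorm 𝕜 X) {C : ℝ} (h1 : ∀ x, ‖x‖ ≤ N x) (h2 : ∀ x, N x ≤ C * ‖x‖) :
    ∃ (Y : Type u) (_ : NormedAddCommGroup Y) (_ : NormedSpace 𝕜 Y) (e : X ≃L[𝕜] Y),
      ∀ x, ‖e x‖ = N x := by
  let nrm : Norm (Ren X) := ⟨fun y => N (show X from y)⟩
  have core : NormedSpace.Core 𝕜 (Ren X) :=
    { norm_nonneg := fun y => apply_nonneg N _
      norm_smul := fun c y => map_smul_eq_mul N c _
      norm_triangle := fun y z => map_add_le_add N _ _
      norm_eq_zero_iff := fun y => by
        constructor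
        · intro h
          have h3 : N (show X from y) = 0 := h
          have h4 : ‖(show X from y)‖ ≤ 0 := (h1 _).trans h3.le
          exact norm_le_zero_iff.1 h4
        · intro h
          rw [h]
          exact map_zero N }
  let i1 : NormedAddCommGroup (Ren X) := NormedAddCommGroup.ofCore core
  let i2 : NormedSpace 𝕜 (Ren X) := NormedSpace.ofCore core
  let L : X ≃ₗ[𝕜] Ren X := LinearEquiv.refl 𝕜 X
  have hL : ∀ x, ‖L x‖ = N x := fun x => rfl
  refine ⟨Ren X, i1, i2, L.toContinuousLinearEquivOfBounds C 1 (fun x => ?_) (fun y => ?_), hL⟩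
  · rw [hL]
    exact h2 x
  · rw [one_mul]
    exact h1 _

end Pool.Agent.H36.NA
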